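import Pool.Agent.KS6_82.RP.NoRP
import Pool.Agent.KS6_82.RP.Model
import Pool.Agent.KS6_82.RP.Tensor

/-!
# Nilpotent thickenings and the resolution property

For a flat affine group scheme `G = Spec A` over a ring `R`, quasi-coherent sheaves on the
classifying stack `B_R G` are the comodules over the Hopf algebra `A`; a sheaf is of finite type
(locally free of finite rank) if and only if the underlying `R`-module is finitely generated
(finitely generated projective).

The group schemes below are `G_e = 𝔸² × 𝔾_m` with the group law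
`(a, b, u) (a', b', u') = (a + a', b + b', u u' (1 + e a b'))`, for an element `e` of `R` with
`e² = 0`.
-/

set_option autoImplicit false

open scoped TensorProduct
open Pool.Agent.W457 Pool.Agent.KS6_82.RP

namespace Pool.Agent.Results.MP_5c73b4_ag.EveryNonTorsionThickening

universe u

/-- The resolution property of the classifying stack `B_R G`, `G = Spec A`, in terms of
comodules: every `A`-comodule that is finitely generated over `R` is a quotient (as a comodule) of
an `A`-comodule that is finitely generated projective over `R`. -/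
def HasResolutionProperty (R : Type u) [CommRing R] (A : Type u) [CommRing A]
    [HopfAlgebra R A] : Prop :=
  ∀ (M : Type u) [AddCommGroup M] [Module R M] [Module.Finite R M] (ρ : Coaction R A M),
    ∃ (V : Type u) (_ : AddCommGroup V) (_ : Module R V) (_ : Module.Finite R V)
      (_ : Module.Projective R V) (σ : Coaction R A V) (f : V →ₗ[R] M),
      Function.Surjective f ∧ ρ.map ∘ₗ f = f.rTensor A ∘ₗ σ.map

/-- the resolution property from twisted families -/
lemma rp_of_fam {R : Type u} [CommRing R] {e : R} {A : Type u} [CommRing A] [HopfAlgebra R A]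
    (H : Heis e A) (he : e * e = 0) (tw : ∀ w : ℤ, Nonempty (TwistFam R ((w : R) * e))) :
    HasResolutionProperty R A := by
  intro M _ _ _ ρ
  exact Cov.quotient (H.cov_top ρ he tw)

lemma mul_sq {R : Type u} [CommRing R] {e : R} (he : e * e = 0) (c : R) :
    (c * e) * (c * e) = 0 := by linear_combination c ^ 2 * he

/-- The group schemes `G_e`. -/
theorem groups (R : Type u) [CommRing R] (e : R) (he : e * e = 0) :
    ∃ (A : Type u) (_ : CommRing A) (_ : HopfAlgebra R A), Algebra.Smooth R A ∧
      (∀ (S : Type u) [CommRing S] [Algebra R S], algebraMap R S e = 0 →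
        HasResolutionProperty S (S ⊗[R] A)) ∧
      (HasResolutionProperty R A → ∃ n : ℕ, 0 < n ∧ n • e = 0) ∧
      ((∃ n : ℕ, Odd n ∧ ¬ 9 ∣ n ∧ n • e = 0) → HasResolutionProperty R A) ∧
      (IsUnit (6 : R) ∨ (∃ p : ℕ, p.Prime ∧ (p : R) = 0) →
        (HasResolutionProperty R A ↔ ∃ n : ℕ, 0 < n ∧ n • e = 0)) := by
  let _ : Eps R := ⟨e, he⟩
  let H : Heis e (GA R) := heisGA R
  have h1 : HasResolutionProperty R (GA R) → ∃ n : ℕ, 0 < n ∧ n • e = 0 := by
    intro h
    obtain ⟨V, _, _, _, _, σ, f, hf, hc⟩ := h _ H.chi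
    exact H.torsion_of_surjection he σ f hc hf
  have h2 : (∃ n : ℕ, Odd n ∧ ¬ 9 ∣ n ∧ n • e = 0) → HasResolutionProperty R (GA R) := by
    rintro ⟨n, hn, hn9, hne⟩
    rw [nsmul_eq_mul] at hne
    exact rp_of_fam H he fun w => fam_odd _ (mul_sq he w) n hn hn9
      (by linear_combination (w : R) * hne)
  have h3 : (2 : R) = 0 → HasResolutionProperty R (GA R) := by
    intro h
    exact rp_of_fam H he fun w => ⟨charTwoFam _ (mul_sq he w) h⟩
  refine ⟨GA R, inferInstance, inferInstance, inferInstance, ?_, h1, h2, ?_⟩
  · intro S _ _ hS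
    have H' := H.baseChange S
    rw [hS] at H'
    exact rp_of_fam H' (zero_mul 0) fun w => ⟨(TwistFam.trivial S).copy (by rw [mul_zero])⟩
  · rintro (h6 | ⟨p, hp, hp0⟩)
    · refine ⟨h1, ?_⟩
      rintro ⟨n, hn, hne⟩
      apply h2
      -- remove the factors `2` and `3` of `n`
      obtain ⟨a, m, hm2, rfl⟩ := Nat.exists_eq_pow_mul_and_not_dvd hn.ne' 2 (by norm_num)
      have hm0 : m ≠ 0 := by rintro rfl; simp at hn
      obtain ⟨b, l, hl3, rfl⟩ := Nat.exists_eq_pow_mul_and_not_dvd hm0 3 (by norm_num)
      refine ⟨l, ?_, ?_, ?_⟩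
      · rw [← Nat.not_even_iff_odd, even_iff_two_dvd]
        exact fun h => hm2 (Dvd.dvd.mul_left h _)
      · exact fun h => hl3 (dvd_trans (by norm_num) h)
      · have h2u : IsUnit (2 : R) := by
          have : (6 : R) = 2 * 3 := by norm_num
          rw [this] at h6
          exact isUnit_of_mul_isUnit_left h6
        have h3u : IsUnit (3 : R) := by
          have : (6 : R) = 2 * 3 := by norm_num
          rw [this] at h6
          exact isUnit_of_mul_isUnit_right h6
        have hu : IsUnit ((2 : R) ^ a * 3 ^ b) := (h2u.pow a).mul (h3u.pow b)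
        rw [nsmul_eq_mul] at hne ⊢
        push_cast at hne
        exact (hu.mul_right_eq_zero).1 (by linear_combination hne)
    · have hR : HasResolutionProperty R (GA R) := by
        rcases hp.eq_two_or_odd' with rfl | hodd
        · exact h3 (by exact_mod_cast hp0)
        · refine h2 ⟨p, hodd, ?_, by rw [nsmul_eq_mul, hp0, zero_mul]⟩
          intro h9
          have h3 : 3 ∣ p := dvd_trans (by norm_num) h9
          rw [Nat.prime_dvd_prime_iff_eq Nat.prime_three hp] at h3
          subst h3
          omega
      exact ⟨h1, fun _ => hR⟩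

/-- **The resolution property does not pass to nilpotent thickenings whose ideal is not
torsion.** Let `I` be a nilpotent ideal of a commutative ring `R`, with an element of infinite
additive order. There is a smooth affine group scheme `G = Spec A` over `R` such that `B_{R/I} G`
has the resolution property and its nilpotent thickening `B_R G` does not have it.

Second part: the groups are of the form `G_e` (`e ∈ I`, `e² = 0`), and for all rings `R` and all
`e` with `e² = 0`: `B_S G_e` has the resolution property for every `R`-algebra `S` with `e = 0` in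
`S`; if `B_R G_e` has the resolution property then `e` is torsion; if `e` is `n`-torsion
with `n` odd and not divisible by `9` then `B_R G_e` has the resolution property; if `6` is
invertible in `R` or `R` has prime characteristic, then `B_R G_e` has the resolution property if
and only if `e` is torsion. -/
theorem result :
    (∀ (R : Type u) [CommRing R] (I : Ideal R), IsNilpotent I →
      (∃ x ∈ I, ∀ n : ℕ, 0 < n → n • x ≠ 0) →
      ∃ (A : Type u) (_ : CommRing A) (_ : HopfAlgebra R A), Algebra.Smooth R A ∧
        HasResolutionProperty (R ⧸ I) ((R ⧸ I) ⊗[R] A) ∧ ¬ HasResolutionProperty R A) ∧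
    (∀ (R : Type u) [CommRing R] (e : R), e * e = 0 →
      ∃ (A : Type u) (_ : CommRing A) (_ : HopfAlgebra R A), Algebra.Smooth R A ∧
        (∀ (S : Type u) [CommRing S] [Algebra R S], algebraMap R S e = 0 →
          HasResolutionProperty S (S ⊗[R] A)) ∧
        (HasResolutionProperty R A → ∃ n : ℕ, 0 < n ∧ n • e = 0) ∧
        ((∃ n : ℕ, Odd n ∧ ¬ 9 ∣ n ∧ n • e = 0) → HasResolutionProperty R A) ∧
        (IsUnit (6 : R) ∨ (∃ p : ℕ, p.Prime ∧ (p : R) = 0) →
          (HasResolutionProperty R A ↔ ∃ n : ℕ, 0 < n ∧ n • e = 0))) := by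
  refine ⟨?_, fun R _ e he => groups R e he⟩
  rintro R _ I ⟨k, hk⟩ ⟨x, hxI, hx⟩
  -- the last power of `x` which is not torsion
  have hxk : x ^ k = 0 := by
    have := Ideal.pow_mem_pow hxI k
    rw [hk] at this
    simpa using this
  have hex : ∃ j : ℕ, 0 < j ∧ (∃ n : ℕ, 0 < n ∧ n • x ^ j = 0) := by
    refine ⟨k + 1, Nat.succ_pos k, 1, one_pos, ?_⟩
    rw [pow_succ, hxk, zero_mul, smul_zero]
  classical
  obtain ⟨hj, n, hn, hnj⟩ := Nat.find_spec hex
  set j := Nat.find hex with hjdef
  have hj1 : j ≠ 1 := by
    intro h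
    rw [h, pow_one] at hnj
    exact hx n hn hnj
  have hnt : ∀ m : ℕ, 0 < m → m • x ^ (j - 1) ≠ 0 := by
    intro m hm h
    exact Nat.find_min hex (m := j - 1) (by omega) ⟨by omega, m, hm, h⟩
  have hsq : n • (x ^ (j - 1) * x ^ (j - 1)) = 0 := by
    have h1 : x ^ (j - 1) * x ^ (j - 1) = x ^ j * x ^ (j - 2) := by
      rw [← pow_add, ← pow_add]
      congr 1
      omega
    rw [h1, ← smul_mul_assoc, hnj, zero_mul]
  have he : (n • x ^ (j - 1)) * (n • x ^ (j - 1)) = 0 := by
    rw [smul_mul_assoc, mul_smul_comm, hsq, smul_zero]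
  obtain ⟨A, i1, i2, hs, hS, ht, -⟩ := groups R (n • x ^ (j - 1)) he
  refine ⟨A, i1, i2, hs, hS (R ⧸ I) ?_, ?_⟩
  · apply Ideal.Quotient.eq_zero_iff_mem.2
    refine nsmul_mem ?_ n
    exact Ideal.pow_mem_of_mem I hxI _ (by omega)
  · intro h
    obtain ⟨m, hm, hm0⟩ := ht h
    exact hnt (m * n) (Nat.mul_pos hm hn) (by rw [mul_smul, hm0])

end Pool.Agent.Results.MP_5c73b4_ag.EveryNonTorsionThickening
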